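import Pool.Agent.Helper970.UniN

/-!
# Rings whose left modules embed in direct sums of uniserial modules

Property (E) (`HasE`) for a ring `R`: every left `R`-module embeds in a direct sum of uniserial
left modules. `result` determines the rings with property (E) by their structure. The
intermediate form `hasE_iff_uniform` is proved as well.
-/

universe u

open scoped DirectSum WithZero

namespace Pool.Agent.Results.MP_2df038_al.EmbedUniserial

open Pool.Agent.Helper970.Uni

/-- Intermediate form: (E) holds iff the ring is left noetherian and every uniform left module is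
uniserial. -/
theorem hasE_iff_uniform (R : Type u) [Ring R] :
    HasE R ↔ IsNoetherianRing R ∧ ∀ (M : Type u) [AddCommGroup M] [Module R M],
      (∀ A B : Submodule R M, A ≠ ⊥ → B ≠ ⊥ → A ⊓ B ≠ ⊥) → IsUniserial R M := by
  rw [hasE_iff]
  refine and_congr_right fun _ => ⟨fun h M _ _ hM => ?_, fun h M _ _ hM => ?_⟩
  · rw [isUniserial_iff]
    apply h
    intro x y hx hy
    have hx' : Submodule.span R {x} ≠ ⊥ := by
      rw [Ne, Submodule.span_singleton_eq_bot]; exact hx
    have hy' : Submodule.span R {y} ≠ ⊥ := by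
      rw [Ne, Submodule.span_singleton_eq_bot]; exact hy
    obtain ⟨z, ⟨hz1, hz2⟩, hz0⟩ := (Submodule.ne_bot_iff _).1 (hM _ _ hx' hy')
    obtain ⟨a, ha⟩ := Submodule.mem_span_singleton.1 hz1
    obtain ⟨b, hb⟩ := Submodule.mem_span_singleton.1 hz2
    exact ⟨a, b, by rw [ha, hb], by rw [ha]; exact hz0⟩
  · rw [← isUniserial_iff]
    exact h M (fun A B hA hB => hM.inf_ne_bot hA hB)

/-- Check: division rings have property (E). -/
theorem hasE_of_divisionRing (D : Type u) [DivisionRing D] : HasE D := by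
  rw [hasE_iff]
  refine ⟨inferInstance, ?_⟩
  intro M _ _ hM x y
  by_cases hx : x = 0
  · exact Or.inl ⟨0, by rw [hx, zero_smul]⟩
  by_cases hy : y = 0
  · exact Or.inr ⟨0, by rw [hy, zero_smul]⟩
  obtain ⟨a, b, hab, h0⟩ := hM x y hx hy
  have ha : a ≠ 0 := by
    rintro rfl
    exact h0 (zero_smul _ _)
  left
  refine ⟨a⁻¹ * b, ?_⟩
  rw [mul_smul, ← hab, smul_smul, inv_mul_cancel₀ ha, one_smul]

/-- Check: the ring of integers does not have property (E). -/
theorem not_hasE_int : ¬ HasE ℤ := by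
  rw [hasE_iff]
  rintro ⟨-, h⟩
  have hU : Unif ℤ ℤ := by
    intro x y hx hy
    refine ⟨y, x, mul_comm _ _, mul_ne_zero hy hx⟩
  rcases h ℤ hU 2 3 with ⟨r, hr⟩ | ⟨r, hr⟩
  · rw [smul_eq_mul] at hr
    omega
  · rw [smul_eq_mul] at hr
    omega

/-- **Main theorem (answer to Q1).** A ring `R` has property (E) if and only if it is left
noetherian and has two-sided ideals `A`, `P 0, …, P (m-1)`, pairwise comaximal, such that

* their intersection `N` is nilpotent,
* `R / A` is semisimple, and each `R / P i` is isomorphic to a ring `hereditaryOrder v n` over a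
  discretely valued division ring,
* `P i * N = N` for all `i`,
* for each maximal left ideal `𝔪` the left module `Hom_R(N, R / 𝔪)` is uniserial. -/
theorem result (R : Type u) [Ring R] :
    HasE R ↔
      IsNoetherianRing R ∧
      ∃ (m : ℕ) (A N : Ideal R) (P : Fin m → Ideal R) (hN : N.IsTwoSided),
        A.IsTwoSided ∧ (∀ i, (P i).IsTwoSided) ∧
        (∀ i, A ⊔ P i = ⊤) ∧ (∀ i j, i ≠ j → P i ⊔ P j = ⊤) ∧
        N = A ⊓ ⨅ i, P i ∧ (∃ e : ℕ, N ^ e = ⊥) ∧
        IsSemisimpleModule R (R ⧸ A) ∧ (∀ i, IsOrderKernel (P i)) ∧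
        (∀ i, P i * N = N) ∧
        (∀ 𝔪 : Ideal R, 𝔪.IsMaximal → IsUniserial R (HomLeft N hN (R ⧸ 𝔪))) := by
  rw [hasE_iff_struct]
  constructor
  · rintro ⟨h0, m, A, N, P, hA, hP, hNdef, hAP, hPP, he, hss, hord, hPN, hhom⟩
    have hN : N.IsTwoSided := by
      refine ⟨fun {x} b hx => ?_⟩
      rw [hNdef] at hx ⊢
      refine ⟨hA.mul_mem_of_left b hx.1, ?_⟩
      have h2 := hx.2
      change x ∈ ⨅ i, P i at h2
      change x * b ∈ ⨅ i, P i
      rw [Submodule.mem_iInf] at h2 ⊢
      intro i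
      exact (hP i).mul_mem_of_left b (h2 i)
    refine ⟨h0, m, A, N, P, hN, hA, hP, hAP, hPP, hNdef, he, hss, ?_, hPN, ?_⟩
    · intro i
      obtain ⟨D, _, v, k, n, φ, h1, h2, h3, h4⟩ := hord i
      refine ⟨D, inferInstance, v, k, n, φ, h1, h2, h3, ?_⟩
      ext r
      rw [RingHom.mem_ker]
      exact h4 r
    · intro 𝔪 hm
      rw [homUser_iff]
      apply hhom
      rw [isSimpleModule_iff_isCoatom]
      exact hm.out
  · rintro ⟨h0, m, A, N, P, hN, hA, hP, hAP, hPP, hNdef, he, hss, hord, hPN, hhom⟩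
    refine ⟨h0, m, A, N, P, hA, hP, hNdef, hAP, hPP, he, hss, ?_, hPN, ?_⟩
    · intro i
      obtain ⟨D, _, v, k, n, φ, h1, h2, h3, h4⟩ := hord i
      refine ⟨D, inferInstance, v, k, n, φ, h1, h2, h3, fun r => ?_⟩
      rw [← h4, RingHom.mem_ker]
    · intro S _ _ hS
      obtain ⟨𝔪, hm, ⟨e⟩⟩ := isSimpleModule_iff_quot_maximal.1 hS
      exact homUser_congr e ((homUser_iff N hN _).1 (hhom 𝔪 hm))

end Pool.Agent.Results.MP_2df038_al.EmbedUniserial
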